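import Mathlib
import Pool.Agent.Helper337.FocalI

/-!
# MP_8aaf67_al: Sylow subgroups of `w(G)` for multilinear commutator words `w`

The definitions are in `Pool/Agent/Helper337/FocalDefs.lean`.
-/

set_option autoImplicit false

namespace Pool.Agent.Results.MP_8aaf67_al.SolubleCase

open Pool.Agent.Helper337.MultilinearWords Pool.Agent.Helper337.Focal

/-- (1) For every multilinear commutator word `w`, every prime `p` and every finite `p`-soluble
group `G`, every Sylow `p`-subgroup of `w(G)` is generated by `w`-values.
(2) In particular this holds for all finite soluble groups and all primes.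
(3) If it fails for some finite group `G` and prime `p`, then it fails (for some multilinear
commutator word) for a section `H` of `G` which is perfect and which modulo a normal subgroup
`K ≤ Φ(H)` of order prime to `p` is simple of order divisible by `p`. -/
theorem result :
    (∀ (w : FreeGroup ℕ) (A : Finset ℕ), IsMultilinear w A → ∀ p : ℕ, p.Prime →
      ∀ (G : Type) [Group G] [Finite G], PSoluble p G → SylowGenerated w p G) ∧
    (∀ (w : FreeGroup ℕ) (A : Finset ℕ), IsMultilinear w A → ∀ p : ℕ, p.Prime →
      ∀ (G : Type) [Group G] [Finite G] [Group.IsSolvable G], SylowGenerated w p G) ∧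
    (∀ (w : FreeGroup ℕ) (A : Finset ℕ), IsMultilinear w A → ∀ p : ℕ, p.Prime →
      ∀ (G : Type) [Group G] [Finite G], ¬ SylowGenerated w p G →
        ∃ (H : Type) (_ : Group H), IsSectionOf H G ∧ Critical p H ∧
          ∃ (w' : FreeGroup ℕ) (A' : Finset ℕ), IsMultilinear w' A' ∧
            ¬ SylowGenerated w' p H) :=
  ⟨fun _ _ hw _ hp G _ _ hG => soluble_case hw hp G hG,
    fun _ _ hw p hp G _ _ _ => soluble_case hw hp G (pSoluble_of_isSolvable p G),
    fun _ _ hw _ hp G _ _ hG => reduction hw hp G hG⟩

end Pool.Agent.Results.MP_8aaf67_al.SolubleCase
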